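import Pool.Agent.Helper42.SG.GoalsB
import Pool.Agent.Helper29.BL.ADD

/-!
# Project SG, packet SGB-ELAW: the two addition laws
-/

set_option autoImplicit false

namespace Pool.Agent.Helper24.SGB

open WeierstrassCurve
open Pool.Agent.Helper29.BL Pool.Agent.Helper42.SG

section laws

variable {F : Type} [Field F] {W : Affine F}

theorem ps_sq (P : W.Point) (hP : P ≠ 0) : ps P ^ 2 = Bf W (xc P) := by
  rcases P with _ | ⟨x, y, h⟩
  · exact absurd rfl hP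
  have e := (W.equation_iff x y).mp h.1
  show (2 * y + W.a₁ * x + W.a₃) ^ 2 = Bf W x
  simp only [Bf, WeierstrassCurve.b₂, WeierstrassCurve.b₄, WeierstrassCurve.b₆]
  linear_combination 4 * e

variable [DecidableEq F]

theorem add_ps (P Q : W.Point) (hP : P ≠ 0) (hQ : Q ≠ 0) (hPQ : P ≠ Q) (hPQ' : P ≠ -Q) :
    2 * Uf (xc Q) (xc P) * xc (P + Q) = Tf W (xc Q) (xc P) - ps P * ps Q := by
  have hx : xc P ≠ xc Q := (add F W P Q hP hQ hPQ hPQ').1
  rcases P with _ | ⟨x₁, y₁, h₁⟩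
  · exact absurd rfl hP
  rcases Q with _ | ⟨x₂, y₂, h₂⟩
  · exact absurd rfl hQ
  simp only [xc] at hx
  have e₁ := (W.equation_iff x₁ y₁).mp h₁.1
  have e₂ := (W.equation_iff x₂ y₂).mp h₂.1
  have hd : x₁ - x₂ ≠ 0 := sub_ne_zero.mpr hx
  rw [Affine.Point.add_of_X_ne hx]
  simp only [xc, Affine.slope_of_X_ne hx, Affine.addX, Uf, Tf, ps]
  have h1 : (x₁ - x₂) ^ 2 * (((y₁ - y₂) / (x₁ - x₂)) ^ 2 + W.a₁ * ((y₁ - y₂) / (x₁ - x₂)) -
      W.a₂ - x₁ - x₂) = (y₁ - y₂) ^ 2 + W.a₁ * (y₁ - y₂) * (x₁ - x₂) -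
        (W.a₂ + x₁ + x₂) * (x₁ - x₂) ^ 2 := by
    field_simp
    ring
  rw [mul_assoc, h1]
  simp only [WeierstrassCurve.b₂, WeierstrassCurve.b₄, WeierstrassCurve.b₆]
  linear_combination 2 * e₁ + 2 * e₂

theorem sub_ps (P Q : W.Point) (hP : P ≠ 0) (hQ : Q ≠ 0) (hPQ : P ≠ Q) (hPQ' : P ≠ -Q) :
    2 * Uf (xc Q) (xc P) * xc (P - Q) = Tf W (xc Q) (xc P) + ps P * ps Q := by
  have h1 := add_ps P Q hP hQ hPQ hPQ'
  have h2 := (add F W P Q hP hQ hPQ hPQ').2.1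
  linear_combination 2 * h2 - h1

end laws

theorem elaw (h0 : EDUP) (_h1 : RPOL) : ELAW := by
  intro F _ _ W _ P Q e h2 hP hQ hPQ
  obtain ⟨hd1, hd2, hd3, hd4⟩ := h0 F W P e hP
  set t : F := (Ph W e (xc P)).1 with ht
  set z : F := (Ph W e (xc P)).2 with hz
  set R : F := Rr W e (xc P) with hR
  set c : F := xc Q with hc
  have hf1 : (law W e false (xc P) c (ps P * ps Q)).1 = 2 * Uh c t z := rfl
  have hf2 : (law W e false (xc P) c (ps P * ps Q)).2 = Th W c t z + ps P * ps Q * R := rfl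
  have ht1 : (law W e true (xc P) c (ps P * ps Q)).1 = Th W c t z - ps P * ps Q * R := rfl
  have ht2 : (law W e true (xc P) c (ps P * ps Q)).2 = 2 * Sh W c t z := rfl
  rw [hf1, hf2, ht1, ht2]
  have heta : ps P * ps Q * R = ps ((2 ^ e) • P) * ps Q * z ^ 2 := by
    linear_combination (-ps Q) * hd4
  rw [heta]
  by_cases h1 : (2 ^ e) • P = 0
  · have hz0 : z = 0 := hd2.2 h1
    have ht0 : t ≠ 0 := by
      rcases hd1 with h | h
      · exact h
      · exact absurd hz0 h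
    have hU : Uh c t z = t ^ 2 := by rw [hz0, Uh]; ring
    have hT : Th W c t z = 2 * t ^ 2 * c := by rw [hz0, Th]; ring
    have hS : Sh W c t z = (t * c) ^ 2 := by rw [hz0, Sh]; ring
    have hne : 2 * t ^ 2 ≠ 0 := mul_ne_zero h2 (pow_ne_zero 2 ht0)
    rw [h1, zero_add, zero_sub, hU, hT, hS, (xeq F W).2 Q, ← hc, hz0]
    refine ⟨Or.inl hne, fun _ => ⟨hne, by ring⟩, fun h3 => absurd (neg_eq_zero.1 h3) hQ, by ring,
      by ring⟩
  · have hz0 : z ≠ 0 := fun h => h1 (hd2.1 h)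
    have htz := hd3 h1
    set P₁ : W.Point := (2 ^ e) • P with hP₁
    have hU : Uh c t z = z ^ 2 * Uf c (xc P₁) := by rw [htz, Uh, Uf]; ring
    have hT : Th W c t z = z ^ 2 * Tf W c (xc P₁) := by rw [htz, Th, Tf]; ring
    have hS : Sh W c t z = z ^ 2 * Sf W c (xc P₁) := by rw [htz, Sh, Sf]; ring
    rw [hU, hT, hS]
    have hz2 : z ^ 2 ≠ 0 := pow_ne_zero 2 hz0
    have hne : P₁ ≠ -Q := fun h => hPQ (by rw [h, neg_add_cancel])
    by_cases h3 : P₁ = Q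
    · have hQQ : Q + Q ≠ 0 := by rwa [h3] at hPQ
      obtain ⟨-, h4⟩ := dbl F W Q hQ
      obtain ⟨h5, h6⟩ := h4 hQQ
      rw [h3, sub_self, ← hc]
      have hU0 : Uf c c = 0 := by simp [Uf]
      have hT0 : Tf W c c = Bf W c := by simp only [Tf, Bf]; ring
      have hS0 : Sf W c c = Af W c := by simp only [Sf, Af]; ring
      have hpp : ps Q * ps Q = Bf W c := by rw [← pow_two, ps_sq Q hQ]
      rw [hU0, hT0, hS0, hpp, ← h6]
      have hne2 : z ^ 2 * Bf W c + Bf W c * z ^ 2 ≠ 0 := by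
        have : z ^ 2 * Bf W c + Bf W c * z ^ 2 = 2 * (z ^ 2 * Bf W c) := by ring
        rw [this]
        exact mul_ne_zero h2 (mul_ne_zero hz2 h5)
      refine ⟨Or.inr hne2, fun h => absurd rfl h, fun _ => by ring, by ring, by ring⟩
    · have hx := (add F W P₁ Q h1 hQ h3 hne).1
      have hUne : Uf c (xc P₁) ≠ 0 := pow_ne_zero 2 (sub_ne_zero.mpr hx)
      have ha := add_ps P₁ Q h1 hQ h3 hne
      have hs := sub_ps P₁ Q h1 hQ h3 hne
      have hp := (add F W P₁ Q h1 hQ h3 hne).2.2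
      rw [← hc] at ha hs hp
      have hne3 : 2 * (z ^ 2 * Uf c (xc P₁)) ≠ 0 := mul_ne_zero h2 (mul_ne_zero hz2 hUne)
      refine ⟨Or.inl hne3, fun _ => ⟨hne3, ?_⟩, fun h => absurd (sub_eq_zero.1 h) h3, ?_, ?_⟩
      · linear_combination (-z ^ 2) * hs
      · linear_combination (-z ^ 2) * ha
      · linear_combination (-2 * z ^ 2) * hp + (xc (P₁ + Q) * z ^ 2) * hs

end Pool.Agent.Helper24.SGB
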