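import Pool.Agent.Helper12.SG.GoalsE

/-!
# Project SG, packet SGE-LAWMAP: the laws commute with ring homomorphisms
-/

set_option autoImplicit false

namespace Pool.Agent.Helper24.SGB

open WeierstrassCurve
open Pool.Agent.Helper29.BL Pool.Agent.Helper42.SG Pool.Agent.Helper12.SG

variable {R S : Type} [CommRing R] [CommRing S] (g : R →+* S) (W : WeierstrassCurve R)

theorem Ah_map (t z : R) : Ah (W.map g) (g t) (g z) = g (Ah W t z) := by
  simp only [Ah, WeierstrassCurve.map_b₄, WeierstrassCurve.map_b₆, WeierstrassCurve.map_b₈,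
    map_sub, map_mul, map_pow, map_ofNat]

theorem Bh_map (t z : R) : Bh (W.map g) (g t) (g z) = g (Bh W t z) := by
  simp only [Bh, WeierstrassCurve.map_b₂, WeierstrassCurve.map_b₄, WeierstrassCurve.map_b₆,
    map_add, map_mul, map_pow, map_ofNat]

theorem Ch_map (t z : R) : Ch (W.map g) (g t) (g z) = g (Ch W t z) := by
  simp only [Ch, WeierstrassCurve.map_b₂, WeierstrassCurve.map_b₄, WeierstrassCurve.map_b₆,
    WeierstrassCurve.map_b₈, map_add, map_sub, map_mul, map_pow, map_ofNat]

theorem Uh_map (c t z : R) : Uh (g c) (g t) (g z) = g (Uh c t z) := by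
  simp only [Uh, map_sub, map_mul, map_pow]

theorem Th_map (c t z : R) : Th (W.map g) (g c) (g t) (g z) = g (Th W c t z) := by
  simp only [Th, WeierstrassCurve.map_b₂, WeierstrassCurve.map_b₄, WeierstrassCurve.map_b₆,
    map_add, map_mul, map_pow, map_ofNat]

theorem Sh_map (c t z : R) : Sh (W.map g) (g c) (g t) (g z) = g (Sh W c t z) := by
  simp only [Sh, WeierstrassCurve.map_b₄, WeierstrassCurve.map_b₆, WeierstrassCurve.map_b₈,
    map_add, map_sub, map_mul, map_pow]

theorem Ph_map (e : ℕ) (x : R) :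
    Ph (W.map g) e (g x) = (g (Ph W e x).1, g (Ph W e x).2) := by
  induction e with
  | zero => exact Prod.ext rfl (map_one g).symm
  | succ e ih =>
    show (Ah (W.map g) (Ph (W.map g) e (g x)).1 (Ph (W.map g) e (g x)).2,
      Bh (W.map g) (Ph (W.map g) e (g x)).1 (Ph (W.map g) e (g x)).2) = _
    rw [ih, Ah_map, Bh_map]
    rfl

theorem Rr_map (e : ℕ) (x : R) : Rr (W.map g) e (g x) = g (Rr W e x) := by
  induction e with
  | zero => exact (map_one g).symm
  | succ e ih =>
    show Rr (W.map g) e (g x) * Ch (W.map g) (Ph (W.map g) e (g x)).1 (Ph (W.map g) e (g x)).2 = _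
    rw [ih, Ph_map, Ch_map, ← map_mul]
    rfl

theorem lawmap : LAWMAP := by
  intro R S _ _ g W e
  refine ⟨fun x => ⟨Ph_map g W e x, Rr_map g W e x⟩, ?_⟩
  intro l x c η
  cases l with
  | false =>
    show (2 * Uh (g c) (Ph (W.map g) e (g x)).1 (Ph (W.map g) e (g x)).2,
      Th (W.map g) (g c) (Ph (W.map g) e (g x)).1 (Ph (W.map g) e (g x)).2 +
        g η * Rr (W.map g) e (g x)) =
      (g (2 * Uh c (Ph W e x).1 (Ph W e x).2),
        g (Th W c (Ph W e x).1 (Ph W e x).2 + η * Rr W e x))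
    rw [Ph_map, Rr_map, Uh_map, Th_map, map_add, map_mul, map_mul, map_ofNat]
  | true =>
    show (Th (W.map g) (g c) (Ph (W.map g) e (g x)).1 (Ph (W.map g) e (g x)).2 -
        g η * Rr (W.map g) e (g x),
      2 * Sh (W.map g) (g c) (Ph (W.map g) e (g x)).1 (Ph (W.map g) e (g x)).2) =
      (g (Th W c (Ph W e x).1 (Ph W e x).2 - η * Rr W e x),
        g (2 * Sh W c (Ph W e x).1 (Ph W e x).2))
    rw [Ph_map, Rr_map, Sh_map, Th_map, map_sub, map_mul, map_mul, map_ofNat]

end Pool.Agent.Helper24.SGB
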